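import Pool.Agent.Y910.F.Defs

/-!
# Project FC, job FC-IRR: irreducibility of the signed sum polynomial from the flips
-/

open Polynomial

set_option autoImplicit false

namespace Pool.Agent.Y396.FC.IRR

open Pool.Agent.Y910.F

/-- the sign of `j` for the set `J` -/
def sgn {Om : Type} [Field Om] {d : ℕ} (J : Finset (Fin d)) (j : Fin d) : Om :=
  if j ∈ J then -1 else 1

lemma exists_flip {K Om : Type} [Field K] [Field Om] [Algebra K Om] {d : ℕ} {t : Fin d → Om}
    (h : HasFlips (K := K) t) (J : Finset (Fin d)) :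
    ∃ σ : Om ≃ₐ[K] Om, ∀ j, σ (t j) = sgn J j * t j := by
  classical
  induction J using Finset.induction_on with
  | empty => exact ⟨AlgEquiv.refl, fun j => by simp [sgn]⟩
  | insert i J hi ih =>
    obtain ⟨σ, hσ⟩ := ih
    obtain ⟨τ, hτ1, hτ2⟩ := h i
    refine ⟨σ.trans τ, fun j => ?_⟩
    rw [AlgEquiv.trans_apply, hσ j]
    by_cases hj : j = i
    · subst hj
      simp [sgn, hi, hτ1]
    · by_cases hJ : j ∈ J
      · simp [sgn, hJ, hτ2 j hj]
      · simp [sgn, hJ, hj, hτ2 j hj]

lemma flip_sum {K Om : Type} [Field K] [Field Om] [Algebra K Om] {d : ℕ} {t : Fin d → Om}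
    {i : Fin d} {τ : Om ≃ₐ[K] Om} (h1 : τ (t i) = -t i) (h2 : ∀ j, j ≠ i → τ (t j) = t j)
    (J : Finset (Fin d)) :
    τ (∑ j, sgn J j * t j) = (∑ j, sgn J j * t j) - 2 * sgn J i * t i := by
  classical
  have hs : ∀ j, τ (sgn J j : Om) = sgn J j := by
    intro j
    unfold sgn
    split_ifs <;> simp
  have hj : ∀ j, τ (t j) = t j - (if j = i then 2 * t i else 0) := by
    intro j
    by_cases hj : j = i
    · subst hj
      rw [h1]
      simp only [if_true]
      ring
    · rw [h2 j hj]
      simp [hj]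
  rw [map_sum]
  simp only [map_mul, hs, hj, mul_sub, Finset.sum_sub_distrib]
  congr 1
  rw [Finset.sum_eq_single i]
  · simp only [if_true]
    ring
  · intro j _ hj
    simp [hj]
  · intro h
    exact absurd (Finset.mem_univ i) h

lemma sum_inj {K Om : Type} [Field K] [Field Om] [CharZero Om] [Algebra K Om] {d : ℕ}
    {t : Fin d → Om} (ht : ∀ i, t i ≠ 0) (h : HasFlips (K := K) t) :
    Function.Injective (fun J : Finset (Fin d) => ∑ j, sgn J j * t j) := by
  intro J J' hJ
  simp only at hJ
  ext i
  obtain ⟨τ, hτ1, hτ2⟩ := h i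
  have e1 := flip_sum hτ1 hτ2 J
  have e2 := flip_sum hτ1 hτ2 J'
  rw [hJ] at e1
  have e3 : (2 : Om) * sgn J i * t i = 2 * sgn J' i * t i := by
    have := e1.symm.trans e2
    linear_combination -this
  have e4 : (sgn J i : Om) = sgn J' i := by
    have h2 : (2 : Om) ≠ 0 := two_ne_zero
    have := mul_right_cancel₀ (ht i) e3
    exact mul_left_cancel₀ h2 this
  unfold sgn at e4
  have hne : (-1 : Om) ≠ 1 := by
    intro h
    have : (2 : Om) = 0 := by linear_combination -h
    exact two_ne_zero this
  by_cases h1 : i ∈ J <;> by_cases h2 : i ∈ J' <;> simp [h1, h2] at e4 ⊢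
  · exact hne e4
  · exact hne e4.symm

/-- Job FC-IRR. -/
theorem done : StIRR := by
  intro K Om _ _ _ _ _ _ d t ht hfl F hF hd hev
  classical
  haveI : CharZero K := charZero_of_injective_algebraMap (IsFractionRing.injective ℂ[X] K)
  haveI : CharZero Om := charZero_of_injective_algebraMap (algebraMap K Om).injective
  haveI : Algebra.IsAlgebraic K Om := IsAlgClosure.isAlgebraic
  set s := ∑ i, t i with hs
  have hint : IsIntegral K s := (Algebra.IsAlgebraic.isAlgebraic s).isIntegral
  set m := minpoly K s with hm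
  have hm0 : m ≠ 0 := minpoly.ne_zero hint
  have hroot : ∀ J : Finset (Fin d), aeval (∑ j, sgn J j * t j) m = 0 := by
    intro J
    obtain ⟨σ, hσ⟩ := exists_flip hfl J
    have h1 : σ s = ∑ j, sgn J j * t j := by
      rw [hs, map_sum]
      exact Finset.sum_congr rfl fun j _ => hσ j
    have h2 := Polynomial.aeval_algHom_apply (σ : Om →ₐ[K] Om) s m
    rw [minpoly.aeval, map_zero] at h2
    rw [← h1]
    exact h2
  have hcard : 2 ^ d ≤ m.natDegree := by
    have h1 : (Finset.univ.image (fun J : Finset (Fin d) => ∑ j, sgn J j * t j)).card ≤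
        (m.map (algebraMap K Om)).natDegree := by
      apply Polynomial.card_le_degree_of_subset_roots
      intro x hx
      rw [Finset.mem_val, Finset.mem_image] at hx
      obtain ⟨J, -, rfl⟩ := hx
      rw [mem_roots (Polynomial.map_ne_zero hm0), IsRoot.def, eval_map_algebraMap]
      exact hroot J
    rw [Finset.card_image_of_injective _ (sum_inj ht hfl), natDegree_map] at h1
    simpa using h1
  set ψ : ℤ[X] →+* K := (algebraMap ℂ[X] K).comp (mapRingHom (Int.castRingHom ℂ)) with hψ
  have hFm : (F.map ψ).Monic := hF.map ψ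
  have hFd : (F.map ψ).natDegree = 2 ^ d := by rw [hF.natDegree_map, hd]
  have hFe : aeval s (F.map ψ) = 0 := by
    rw [aeval_def, eval₂_map, hψ]
    exact hev
  have hdvd : m ∣ F.map ψ := minpoly.dvd K s hFe
  have heq : F.map ψ = m := by
    apply Polynomial.eq_of_monic_of_dvd_of_natDegree_le (minpoly.monic hint) hFm hdvd
    rw [hFd]
    exact hcard
  have hirr : Irreducible (F.map ψ) := by
    rw [heq]
    exact minpoly.irreducible hint
  exact (Polynomial.Monic.irreducible_of_irreducible_map ψ F hF hirr).prime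

end Pool.Agent.Y396.FC.IRR
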