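import Pool.Agent.Y910.F.Defs

/-!
# Project FC, job FC-SG: the signed sum polynomial
-/

open Polynomial

set_option autoImplicit false

namespace Pool.Agent.Y396.FC.SG

open Pool.Agent.Y910.F

section gen

variable {B : Type*} [CommRing B]

lemma pab_zero (u : B) : pab u 0 = (1, 0) := rfl

lemma pab_succ (u : B) (k : ℕ) :
    pab u (k + 1) = (X * (pab u k).1 + C u * (pab u k).2, (pab u k).1 + X * (pab u k).2) := rfl

lemma pab_plus (t : B) (k : ℕ) :
    (X + C t) ^ k = (pab (t ^ 2) k).1 + C t * (pab (t ^ 2) k).2 := by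
  induction k with
  | zero => simp [pab_zero]
  | succ k ih =>
    rw [pow_succ, ih, pab_succ]
    simp only [C_pow]
    ring

lemma pab_minus (t : B) (k : ℕ) :
    (X - C t) ^ k = (pab (t ^ 2) k).1 - C t * (pab (t ^ 2) k).2 := by
  induction k with
  | zero => simp [pab_zero]
  | succ k ih =>
    rw [pow_succ, ih, pab_succ]
    simp only [C_pow]
    ring

/-- the product formula -/
lemma nm_eq (n : ℕ) (t : B) (Q : B[X]) (hQ : Q.natDegree ≤ n) :
    nm n (t ^ 2) Q = Q.comp (X + C t) * Q.comp (X - C t) := by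
  have h1 : Q.comp (X + C t) = (∑ k ∈ Finset.range (n + 1), C (Q.coeff k) * (pab (t ^ 2) k).1) +
      C t * (∑ k ∈ Finset.range (n + 1), C (Q.coeff k) * (pab (t ^ 2) k).2) := by
    unfold Polynomial.comp
    rw [eval₂_eq_sum_range' C (Nat.lt_succ_of_le hQ), Finset.mul_sum, ← Finset.sum_add_distrib]
    refine Finset.sum_congr rfl fun k _ => ?_
    rw [pab_plus]
    ring
  have h2 : Q.comp (X - C t) = (∑ k ∈ Finset.range (n + 1), C (Q.coeff k) * (pab (t ^ 2) k).1) -
      C t * (∑ k ∈ Finset.range (n + 1), C (Q.coeff k) * (pab (t ^ 2) k).2) := by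
    unfold Polynomial.comp
    rw [eval₂_eq_sum_range' C (Nat.lt_succ_of_le hQ), Finset.mul_sum, ← Finset.sum_sub_distrib]
    refine Finset.sum_congr rfl fun k _ => ?_
    rw [pab_minus]
    ring
  rw [h1, h2, nm]
  simp only [C_pow]
  ring

lemma pab_map {B' : Type*} [CommRing B'] (φ : B →+* B') (u : B) (k : ℕ) :
    (pab u k).1.map φ = (pab (φ u) k).1 ∧ (pab u k).2.map φ = (pab (φ u) k).2 := by
  induction k with
  | zero => simp [pab_zero]
  | succ k ih =>
    obtain ⟨h1, h2⟩ := ih
    rw [pab_succ, pab_succ]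
    refine ⟨?_, ?_⟩
    · simp [h1, h2]
    · simp [h1, h2]

lemma nm_map {B' : Type*} [CommRing B'] (φ : B →+* B') (n : ℕ) (u : B) (Q : B[X]) :
    (nm n u Q).map φ = nm n (φ u) (Q.map φ) := by
  unfold nm
  simp only [Polynomial.map_sub, Polynomial.map_mul, Polynomial.map_pow, Polynomial.map_sum,
    Polynomial.map_C, coeff_map, (pab_map φ u _).1, (pab_map φ u _).2]

lemma sg_nil : sg ([] : List B) = X := rfl

lemma sg_cons (u : B) (l : List B) : sg (u :: l) = nm (2 ^ l.length) u (sg l) := rfl

lemma sg_map {B' : Type*} [CommRing B'] (φ : B →+* B') (l : List B) :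
    (sg l).map φ = sg (l.map φ) := by
  induction l with
  | nil => simp [sg_nil]
  | cons u l ih => rw [sg_cons, List.map_cons, sg_cons, nm_map, ih, List.length_map]

lemma pab_coeff (u : B) (k : ℕ) : (pab u k).1.coeff k = 1 ∧ (∀ m, k < m → (pab u k).1.coeff m = 0) ∧
    ∀ m, k ≤ m → (pab u k).2.coeff m = 0 := by
  induction k with
  | zero =>
    refine ⟨by simp [pab_zero], fun m hm => ?_, fun m _ => by simp [pab_zero]⟩
    simp [pab_zero, coeff_one, hm.ne']
  | succ k ih =>
    obtain ⟨h1, h2, h3⟩ := ih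
    rw [pab_succ]
    refine ⟨?_, fun m hm => ?_, fun m hm => ?_⟩
    · simp only [coeff_add, coeff_X_mul, coeff_C_mul]
      rw [h1, h3 (k + 1) (by omega)]
      simp
    · obtain ⟨m, rfl⟩ : ∃ m', m = m' + 1 := ⟨m - 1, by omega⟩
      simp only [coeff_add, coeff_X_mul, coeff_C_mul]
      rw [h2 m (by omega), h3 (m + 1) (by omega)]
      simp
    · obtain ⟨m, rfl⟩ : ∃ m', m = m' + 1 := ⟨m - 1, by omega⟩
      simp only [coeff_add, coeff_X_mul]
      rw [h2 (m + 1) (by omega), h3 m (by omega)]
      simp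

lemma nm_monic [Nontrivial B] (n : ℕ) (hn : 1 ≤ n) (u : B) (Q : B[X]) (hQ : Q.Monic)
    (hd : Q.natDegree = n) : (nm n u Q).Monic ∧ (nm n u Q).natDegree = 2 * n := by
  set E := ∑ k ∈ Finset.range (n + 1), C (Q.coeff k) * (pab u k).1 with hE
  set O := ∑ k ∈ Finset.range (n + 1), C (Q.coeff k) * (pab u k).2 with hO
  have hnm : nm n u Q = E ^ 2 - C u * O ^ 2 := rfl
  have hEd : E.natDegree ≤ n := by
    rw [natDegree_le_iff_coeff_eq_zero]
    intro m hm
    rw [hE, finsetSum_coeff]
    refine Finset.sum_eq_zero fun k hk => ?_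
    rw [coeff_C_mul, (pab_coeff u k).2.1 m (by have := Finset.mem_range.1 hk; omega), mul_zero]
  have hEc : E.coeff n = 1 := by
    rw [hE, finsetSum_coeff, Finset.sum_range_succ, Finset.sum_eq_zero, zero_add, coeff_C_mul,
      (pab_coeff u n).1, mul_one]
    · have := hQ.coeff_natDegree
      rwa [hd] at this
    · intro k hk
      rw [coeff_C_mul, (pab_coeff u k).2.1 n (by have := Finset.mem_range.1 hk; omega), mul_zero]
  have hOd : O.natDegree ≤ n - 1 := by
    rw [natDegree_le_iff_coeff_eq_zero]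
    intro m hm
    rw [hO, finsetSum_coeff]
    refine Finset.sum_eq_zero fun k hk => ?_
    rw [coeff_C_mul, (pab_coeff u k).2.2 m (by have := Finset.mem_range.1 hk; omega), mul_zero]
  have hEm : E.Monic := monic_of_natDegree_le_of_coeff_eq_one n hEd hEc
  have hEn : E.natDegree = n := le_antisymm hEd (le_natDegree_of_ne_zero (by rw [hEc]; exact one_ne_zero))
  have hE2 : (E ^ 2).Monic := hEm.pow 2
  have hE2n : (E ^ 2).natDegree = 2 * n := by rw [hEm.natDegree_pow, hEn]
  have hO2 : (C u * O ^ 2).natDegree < 2 * n := by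
    refine lt_of_le_of_lt (natDegree_C_mul_le u _) (lt_of_le_of_lt (natDegree_pow_le) ?_)
    omega
  have hc : (nm n u Q).coeff (2 * n) = 1 := by
    rw [hnm, coeff_sub, coeff_eq_zero_of_natDegree_lt hO2, sub_zero]
    have := hE2.coeff_natDegree
    rwa [hE2n] at this
  have hle : (nm n u Q).natDegree ≤ 2 * n := by
    rw [hnm]
    refine (natDegree_sub_le _ _).trans (max_le hE2n.le hO2.le)
  exact ⟨monic_of_natDegree_le_of_coeff_eq_one _ hle hc,
    le_antisymm hle (le_natDegree_of_ne_zero (by rw [hc]; exact one_ne_zero))⟩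

lemma sg_monic [Nontrivial B] (l : List B) : (sg l).Monic ∧ (sg l).natDegree = 2 ^ l.length := by
  induction l with
  | nil => exact ⟨monic_X, by simp [sg_nil]⟩
  | cons u l ih =>
    obtain ⟨h1, h2⟩ := nm_monic (2 ^ l.length) Nat.one_le_two_pow u (sg l) ih.1 ih.2
    refine ⟨h1, ?_⟩
    rw [sg_cons, h2, List.length_cons]
    ring

lemma sg_natDegree_le (l : List B) : (sg l).natDegree ≤ 2 ^ l.length := by
  rcases subsingleton_or_nontrivial B with h | h
  · have : sg l = 0 := Subsingleton.elim _ _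
    rw [this]
    simp
  · exact (sg_monic l).2.le

lemma sg_cons_sq (t : B) (l : List B) :
    sg (t ^ 2 :: l) = (sg l).comp (X + C t) * (sg l).comp (X - C t) := by
  rw [sg_cons, nm_eq _ _ _ (sg_natDegree_le l)]

lemma sg_eval (l : List B) : (sg (l.map fun t => t ^ 2)).eval l.sum = 0 := by
  induction l with
  | nil => simp [sg_nil]
  | cons t l ih =>
    rw [List.map_cons, sg_cons_sq, eval_mul, List.sum_cons]
    have : ((sg (l.map fun t => t ^ 2)).comp (X - C t)).eval (t + l.sum) = 0 := by
      rw [eval_comp]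
      simp only [eval_sub, eval_X, eval_C, add_sub_cancel_left]
      exact ih
    rw [this, mul_zero]

end gen

lemma sg_perm_ac {Om : Type*} [Field Om] [IsAlgClosed Om] (l l' : List Om) (h : l.Perm l') :
    sg l = sg l' := by
  induction h with
  | nil => rfl
  | cons x h ih => rw [sg_cons, sg_cons, ih, h.length_eq]
  | swap x y l =>
    obtain ⟨a, rfl⟩ := IsAlgClosed.exists_pow_nat_eq x (n := 2) (by norm_num)
    obtain ⟨b, rfl⟩ := IsAlgClosed.exists_pow_nat_eq y (n := 2) (by norm_num)
    rw [sg_cons_sq, sg_cons_sq, sg_cons_sq, sg_cons_sq]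
    simp only [mul_comp, comp_assoc, add_comp, sub_comp, X_comp, C_comp]
    have e1 : (X + C b + C a : Om[X]) = X + C a + C b := by ring
    have e2 : (X + C b - C a : Om[X]) = X - C a + C b := by ring
    have e3 : (X - C b + C a : Om[X]) = X + C a - C b := by ring
    have e4 : (X - C b - C a : Om[X]) = X - C a - C b := by ring
    rw [e1, e2, e3, e4]
    ring
  | trans _ _ h1 h2 => exact h1.trans h2

/-- Job FC-SG. -/
theorem done : StSG := by
  refine ⟨fun B B' _ _ φ l => sg_map φ l, fun B _ _ l => sg_monic l, fun B _ l => sg_eval l,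
    fun B _ _ l l' h => ?_⟩
  let φ : B →+* AlgebraicClosure (FractionRing B) :=
    (algebraMap (FractionRing B) (AlgebraicClosure (FractionRing B))).comp
      (algebraMap B (FractionRing B))
  have hφ : Function.Injective φ :=
    (algebraMap (FractionRing B) (AlgebraicClosure (FractionRing B))).injective.comp
      (IsFractionRing.injective B (FractionRing B))
  apply Polynomial.map_injective φ hφ
  rw [sg_map, sg_map]
  exact sg_perm_ac _ _ (h.map φ)

end Pool.Agent.Y396.FC.SG
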